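import Mathlib
import Pool.Agent.R859.BM.Main

/-!
# Coefficients of products of sums of distinct variables

Every coefficient of `∏ i : Fin n, ∑ j : Fin k, X (x i j)`, where for every `i` the `k` symbols
`x i j` are replaced by distinct variables among `r` variables, is at most the balanced
multinomial coefficient with `k` parts summing to `n`.
-/

set_option autoImplicit false

namespace Pool.Agent.Results.MP_3eac50_co.BalancedBound

open Pool.Agent.R859.BM

theorem result (k n r : ℕ) (hk : 1 ≤ k) (x : Fin n → Fin k → Fin r)
    (hx : ∀ i, Function.Injective (x i)) (α : Fin r →₀ ℕ) :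
    MvPolynomial.coeff α
        (∏ i : Fin n, ∑ j : Fin k, (MvPolynomial.X (x i j) : MvPolynomial (Fin r) ℕ)) ≤
      Nat.multinomial (Finset.univ : Finset (Fin k))
        (fun i => if i.val < n % k then n / k + 1 else n / k) := by
  classical
  rw [← balanced_eq_multinomial n k hk]
  have h : (∏ i : Fin n, ∑ j : Fin k, (MvPolynomial.X (x i j) : MvPolynomial (Fin r) ℕ)) =
      ∏ i : Fin n, ∑ c ∈ Finset.univ.image (x i), MvPolynomial.X c := by
    refine Finset.prod_congr rfl fun i _ => ?_
    rw [Finset.sum_image fun a _ b _ hab => hx i hab]
  rw [h, coeff_prod]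
  refine card_ch_le hk _ (fun i => ?_) α
  rw [Finset.card_image_of_injective _ (hx i), Finset.card_univ, Fintype.card_fin]

end Pool.Agent.Results.MP_3eac50_co.BalancedBound
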